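import Pool.Agent.E8helper38.Sow.Eval

/-!
# Sowing (project SW): the position `F^15 13 F 3 FFF 2 FFF 3 F 13 F^15` is `*4`

Certificate: lists of positions (five small pots, nim component), each with the replies of the
second player, closed under the play.
-/

set_option autoImplicit false
set_option maxRecDepth 20000

namespace Pool.Agent.E8helper44.Sow

open SowingH27
open Pool.Agent.E8helper38.Sow

/-- the five small pots (at 15, 17, 21, 25, 27) -/
structure St where
  a : ℕ
  b : ℕ
  c : ℕ
  d : ℕ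
  e : ℕ

/-- the content of the pot `x` -/
def St.at (s : St) (x : ℕ) : ℕ :=
  bif Nat.beq x 15 then s.a else bif Nat.beq x 17 then s.b else bif Nat.beq x 21 then s.c else
    bif Nat.beq x 25 then s.d else bif Nat.beq x 27 then s.e else 99

/-- the new content of the pot `x` -/
def up1 (lo hi z x v : ℕ) : ℕ :=
  bif Nat.beq x z then 0 else bif (Nat.ble lo x && Nat.ble x hi) then v + 1 else v

/-- sowing -/
def St.sow (s : St) (lo hi z : ℕ) : St :=
  ⟨up1 lo hi z 15 s.a, up1 lo hi z 17 s.b, up1 lo hi z 21 s.c, up1 lo hi z 25 s.d,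
    up1 lo hi z 27 s.e⟩

/-- legal move of Left -/
def okL (s : St) (z : ℕ) : Bool :=
  !(Nat.beq (s.at z) 0) && (Nat.ble (z + s.at z) 42 && !(Nat.beq (s.at (z + s.at z)) 0))

/-- legal move of Right -/
def okR (s : St) (z : ℕ) : Bool :=
  !(Nat.beq (s.at z) 0) && (Nat.ble (s.at z) z && !(Nat.beq (s.at (z - s.at z)) 0))

/-- Left's move -/
def stL (s : St) (z : ℕ) : St := s.sow (z + 1) (z + s.at z) z

/-- Right's move -/
def stR (s : St) (z : ℕ) : St := s.sow (z - s.at z) z z

/-- the small pots -/
def pots : List ℕ := [15, 17, 21, 25, 27]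

/-- the row `p` has the small pots `s`, the other ones are full -/
structure Ty (s : St) (p : ℤ → ℕ) : Prop where
  neg : ∀ j : ℤ, j < 0 → p j = 0
  big : ∀ j : ℤ, 42 < j → p j = 0
  pa : p 15 = s.a
  pb : p 17 = s.b
  pc : p 21 = s.c
  pd : p 25 = s.d
  pe : p 27 = s.e
  full : ∀ j : ℤ, 0 ≤ j → j ≤ 42 → j ≠ 15 → j ≠ 17 → j ≠ 21 → j ≠ 25 → j ≠ 27 → 43 ≤ p j

lemma beq_iff (a b : ℕ) : Nat.beq a b = true ↔ a = b := by
  constructor
  · exact Nat.eq_of_beq_eq_true
  · rintro rfl; exact Nat.beq_refl a

lemma at_pot {s : St} {p : ℤ → ℕ} (h : Ty s p) {z : ℕ} (hz : z ∈ pots) : p z = s.at z := by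
  simp only [pots, List.mem_cons, List.not_mem_nil, or_false] at hz
  rcases hz with rfl | rfl | rfl | rfl | rfl
  · exact h.pa
  · exact h.pb
  · exact h.pc
  · exact h.pd
  · exact h.pe

lemma at_zero {s : St} {p : ℤ → ℕ} (h : Ty s p) (x : ℕ) (hx : x ≤ 42) :
    p x = 0 ↔ s.at x = 0 := by
  by_cases h1 : x ∈ pots
  · rw [at_pot h h1]
  · simp only [pots, List.mem_cons, List.not_mem_nil, or_false, not_or] at h1
    obtain ⟨h1, h2, h3, h4, h5⟩ := h1
    have h6 := h.full x (by omega) (by omega) (by omega) (by omega) (by omega) (by omega)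
      (by omega)
    have h7 : s.at x = 99 := by
      unfold St.at
      rw [beq_false h1, beq_false h2, beq_false h3, beq_false h4, beq_false h5]
      rfl
    rw [h7]
    omega

lemma up1_eq (lo hi z x v : ℕ) :
    up1 lo hi z x v = if x = z then 0 else if lo ≤ x ∧ x ≤ hi then v + 1 else v := by
  unfold up1
  by_cases h1 : x = z
  · rw [(beq_iff x z).2 h1, if_pos h1]; rfl
  · rw [beq_false h1, if_neg h1]
    by_cases h2 : lo ≤ x ∧ x ≤ hi
    · rw [if_pos h2]
      have : (Nat.ble lo x && Nat.ble x hi) = true := by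
        rw [Bool.and_eq_true, Nat.ble_eq, Nat.ble_eq]; exact h2
      rw [this]; rfl
    · rw [if_neg h2]
      have : (Nat.ble lo x && Nat.ble x hi) = false := by
        by_contra hc
        rw [Bool.not_eq_false, Bool.and_eq_true, Nat.ble_eq, Nat.ble_eq] at hc
        exact h2 hc
      rw [this]; rfl

/-- the rows after sowing -/
lemma ty_sow {s : St} {p q : ℤ → ℕ} (h : Ty s p) {lo hi z : ℕ} (hz : z ∈ pots)
    (hhi : hi ≤ 42)
    (hq : ∀ j : ℤ, q j = if j = z then 0 else if (lo : ℤ) ≤ j ∧ j ≤ hi then p j + 1 else p j) :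
    Ty (s.sow lo hi z) q := by
  have hz2 : z ≤ 27 := by
    simp only [pots, List.mem_cons, List.not_mem_nil, or_false] at hz
    omega
  refine ⟨fun j hj => ?_, fun j hj => ?_, ?_, ?_, ?_, ?_, ?_, ?_⟩
  · rw [hq]
    have := h.neg j hj
    split_ifs <;> omega
  · rw [hq]
    have := h.big j hj
    split_ifs <;> omega
  · show q 15 = up1 lo hi z 15 s.a
    rw [hq, up1_eq, h.pa]
    split_ifs <;> omega
  · show q 17 = up1 lo hi z 17 s.b
    rw [hq, up1_eq, h.pb]
    split_ifs <;> omega
  · show q 21 = up1 lo hi z 21 s.c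
    rw [hq, up1_eq, h.pc]
    split_ifs <;> omega
  · show q 25 = up1 lo hi z 25 s.d
    rw [hq, up1_eq, h.pd]
    split_ifs <;> omega
  · show q 27 = up1 lo hi z 27 s.e
    rw [hq, up1_eq, h.pe]
    split_ifs <;> omega
  · intro j h0 h1 h2 h3 h4 h5 h6
    have h7 := h.full j h0 h1 h2 h3 h4 h5 h6
    have h8 : j ≠ z := by
      simp only [pots, List.mem_cons, List.not_mem_nil, or_false] at hz
      omega
    rw [hq, if_neg h8]
    split_ifs <;> omega

/-- a pot that can be sown is small -/
lemma small {s : St} {p : ℤ → ℕ} (h : Ty s p) {i : ℤ} (h1 : p i ≠ 0) (h2 : p i < 43) :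
    ∃ z : ℕ, z ∈ pots ∧ i = z := by
  have h3 : 0 ≤ i := by
    by_contra hc
    exact h1 (h.neg i (by omega))
  have h4 : i ≤ 42 := by
    by_contra hc
    exact h1 (h.big i (by omega))
  by_contra hc
  have h5 : ∀ z : ℕ, z ∈ pots → i ≠ z := fun z hz he => hc ⟨z, hz, he⟩
  have := h.full i h3 h4 (by exact_mod_cast h5 15 (by decide))
    (by exact_mod_cast h5 17 (by decide)) (by exact_mod_cast h5 21 (by decide))
    (by exact_mod_cast h5 25 (by decide)) (by exact_mod_cast h5 27 (by decide))
  omega

lemma okL_iff (s : St) (z : ℕ) : okL s z = true ↔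
    s.at z ≠ 0 ∧ z + s.at z ≤ 42 ∧ s.at (z + s.at z) ≠ 0 := by
  unfold okL
  rw [Bool.and_eq_true, Bool.and_eq_true, Nat.ble_eq, Bool.not_eq_true', Bool.not_eq_true',
    ← Bool.not_eq_true, ← Bool.not_eq_true, beq_iff, beq_iff]

lemma okR_iff (s : St) (z : ℕ) : okR s z = true ↔
    s.at z ≠ 0 ∧ s.at z ≤ z ∧ s.at (z - s.at z) ≠ 0 := by
  unfold okR
  rw [Bool.and_eq_true, Bool.and_eq_true, Nat.ble_eq, Bool.not_eq_true', Bool.not_eq_true',
    ← Bool.not_eq_true, ← Bool.not_eq_true, beq_iff, beq_iff]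

lemma left_ty {s : St} {p : ℤ → ℕ} (h : Ty s p) {z : ℕ} (hz : z ∈ pots) (hk : okL s z = true) :
    Ty (stL s z) (sowRight p z) := by
  obtain ⟨h1, h2, h3⟩ := (okL_iff s z).1 hk
  refine ty_sow h hz h2 fun j => ?_
  unfold sowRight
  rw [at_pot h hz]
  push_cast
  split_ifs <;> first | rfl | (exfalso; omega)

lemma right_ty {s : St} {p : ℤ → ℕ} (h : Ty s p) {z : ℕ} (hz : z ∈ pots)
    (hk : okR s z = true) : Ty (stR s z) (sowLeft p z) := by
  obtain ⟨h1, h2, h3⟩ := (okR_iff s z).1 hk
  have hz2 : z ≤ 42 := by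
    simp only [pots, List.mem_cons, List.not_mem_nil, or_false] at hz
    omega
  refine ty_sow h hz hz2 fun j => ?_
  unfold sowLeft
  rw [at_pot h hz]
  rw [Nat.cast_sub h2]
  split_ifs <;> first | rfl | (exfalso; omega)

/-- the moves of Left -/
lemma left_iff {s : St} {p : ℤ → ℕ} (h : Ty s p) (q : ℤ → ℕ) : sowing.L p q ↔
    ∃ z ∈ pots, okL s z = true ∧ q = sowRight p z := by
  constructor
  · rintro ⟨i, h1, h2, rfl⟩
    have h3 : 0 ≤ i := by
      by_contra hc
      exact h1 (h.neg i (by omega))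
    have h4 : i + p i ≤ 42 := by
      by_contra hc
      exact h2 (h.big _ (by omega))
    obtain ⟨z, hz, rfl⟩ := small h h1 (by omega)
    rw [at_pot h hz] at h1 h2 h4
    refine ⟨z, hz, (okL_iff s z).2 ⟨h1, by omega, fun h5 => h2 ?_⟩, rfl⟩
    have h6 := (at_zero h (z + s.at z) (by omega)).2 h5
    push_cast at h6
    exact h6
  · rintro ⟨z, hz, hk, rfl⟩
    obtain ⟨h1, h2, h3⟩ := (okL_iff s z).1 hk
    refine ⟨z, by rw [at_pot h hz]; exact h1, ?_, rfl⟩
    rw [at_pot h hz]
    intro h6
    apply h3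
    rw [← at_zero h (z + s.at z) h2]
    push_cast
    exact h6

/-- the moves of Right -/
lemma right_iff {s : St} {p : ℤ → ℕ} (h : Ty s p) (q : ℤ → ℕ) : sowing.R p q ↔
    ∃ z ∈ pots, okR s z = true ∧ q = sowLeft p z := by
  constructor
  · rintro ⟨i, h1, h2, rfl⟩
    have h3 : i ≤ 42 := by
      by_contra hc
      exact h1 (h.big i (by omega))
    have h4 : 0 ≤ i - p i := by
      by_contra hc
      exact h2 (h.neg _ (by omega))
    obtain ⟨z, hz, rfl⟩ := small h h1 (by omega)
    rw [at_pot h hz] at h1 h2 h4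
    refine ⟨z, hz, (okR_iff s z).2 ⟨h1, by omega, fun h5 => h2 ?_⟩, rfl⟩
    have h6 := (at_zero h (z - s.at z) (by omega)).2 h5
    rw [Nat.cast_sub (by omega)] at h6
    exact h6
  · rintro ⟨z, hz, hk, rfl⟩
    obtain ⟨h1, h2, h3⟩ := (okR_iff s z).1 hk
    have hz2 : z ≤ 42 := by
      simp only [pots, List.mem_cons, List.not_mem_nil, or_false] at hz
      omega
    refine ⟨z, by rw [at_pot h hz]; exact h1, ?_, rfl⟩
    rw [at_pot h hz]
    intro h6
    apply h3
    rw [← at_zero h (z - s.at z) (by omega), Nat.cast_sub h2]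
    exact h6

/-! ### the nim component -/

lemma mem_nims (n : ℕ) (H : Game) : H ∈ nims n ↔ ∃ j < n, H = nim j := by
  induction n with
  | zero =>
    simp [nims]
  | succ n ih =>
    show H ∈ nim n :: nims n ↔ _
    rw [List.mem_cons, ih]
    constructor
    · rintro (rfl | ⟨j, hj, rfl⟩)
      · exact ⟨n, by omega, rfl⟩
      · exact ⟨j, by omega, rfl⟩
    · rintro ⟨j, hj, rfl⟩
      rcases Nat.lt_or_ge j n with h | h
      · exact Or.inr ⟨j, h, rfl⟩
      · left
        rw [show j = n by omega]

lemma gamesL_iff (n : ℕ) (y : List Game) : games.L [nim n] y ↔ ∃ j < n, y = [nim j] := by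
  rw [mem_gameL]
  show y ∈ (nims n).map (fun H => [H]) ++ [] ↔ _
  rw [List.append_nil, List.mem_map]
  constructor
  · rintro ⟨H, hH, rfl⟩
    obtain ⟨j, hj, rfl⟩ := (mem_nims n H).1 hH
    exact ⟨j, hj, rfl⟩
  · rintro ⟨j, hj, rfl⟩
    exact ⟨nim j, (mem_nims n _).2 ⟨j, hj, rfl⟩, rfl⟩

lemma gamesR_iff (n : ℕ) (y : List Game) : games.R [nim n] y ↔ ∃ j < n, y = [nim j] := by
  rw [mem_gameR]
  show y ∈ (nims n).map (fun H => [H]) ++ [] ↔ _
  rw [List.append_nil, List.mem_map]
  constructor
  · rintro ⟨H, hH, rfl⟩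
    obtain ⟨j, hj, rfl⟩ := (mem_nims n H).1 hH
    exact ⟨j, hj, rfl⟩
  · rintro ⟨j, hj, rfl⟩
    exact ⟨nim j, (mem_nims n _).2 ⟨j, hj, rfl⟩, rfl⟩

/-! ### monotonicity -/

lemma ls_mono {α : Type} (A : Arena α) : ∀ (n : ℕ) (x : α), A.LeftSecond n x →
    A.LeftSecond (n + 1) x
  | 0, x, h => fun y hy => absurd hy (h y)
  | n + 1, x, h => fun y hy => by
    obtain ⟨z, h1, h2⟩ := h y hy
    exact ⟨z, h1, ls_mono A n z h2⟩

lemma rs_mono {α : Type} (A : Arena α) : ∀ (n : ℕ) (x : α), A.RightSecond n x →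
    A.RightSecond (n + 1) x
  | 0, x, h => fun y hy => absurd hy (h y)
  | n + 1, x, h => fun y hy => by
    obtain ⟨z, h1, h2⟩ := h y hy
    exact ⟨z, h1, rs_mono A n z h2⟩

/-! ### the checker -/

/-- the small pots of a code -/
def dec (n : ℕ) : St :=
  ⟨n % 64, n / 64 % 64, n / 4096 % 64, n / 262144 % 64, n / 16777216 % 64⟩

/-- the nim heap of a code -/
def hd (n : ℕ) : ℕ := n / 1073741824

/-- equality of states -/
def eqS (s t : St) : Bool :=
  Nat.beq s.a t.a && (Nat.beq s.b t.b && (Nat.beq s.c t.c && (Nat.beq s.d t.d &&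
    Nat.beq s.e t.e)))

lemma eqS_eq {s t : St} (h : eqS s t = true) : s = t := by
  unfold eqS at h
  simp only [Bool.and_eq_true, beq_iff] at h
  obtain ⟨h1, h2, h3, h4, h5⟩ := h
  cases s
  cases t
  simp only at h1 h2 h3 h4 h5
  rw [h1, h2, h3, h4, h5]

/-- membership -/
def mem (r : ℕ) : List ℕ → Bool
  | [] => false
  | x :: xs => Nat.beq r x || mem r xs

lemma mem_mem {r : ℕ} {l : List ℕ} (h : mem r l = true) : r ∈ l := by
  induction l with
  | nil => exact absurd h (by simp [mem])
  | cons x xs ih =>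
    rw [mem, Bool.or_eq_true, beq_iff] at h
    rcases h with h | h
    · rw [h]; exact List.mem_cons_self
    · exact List.mem_cons_of_mem _ (ih h)

/-- `r` is the code of a position after a sowing move (`ok`, `st`) from the state `s`, heap `h` -/
def potRep (ok : St → ℕ → Bool) (st : St → ℕ → St) (s : St) (h r : ℕ) : List ℕ → Bool
  | [] => false
  | z :: zs => (ok s z && (eqS (dec r) (st s z) && Nat.beq (hd r) h)) || potRep ok st s h r zs

lemma potRep_spec {ok : St → ℕ → Bool} {st : St → ℕ → St} {s : St} {h r : ℕ} {l : List ℕ}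
    (hr : potRep ok st s h r l = true) :
    ∃ z ∈ l, ok s z = true ∧ dec r = st s z ∧ hd r = h := by
  induction l with
  | nil => exact absurd hr (by simp [potRep])
  | cons z zs ih =>
    rw [potRep, Bool.or_eq_true, Bool.and_eq_true, Bool.and_eq_true, beq_iff] at hr
    rcases hr with ⟨h1, h2, h3⟩ | hr
    · exact ⟨z, List.mem_cons_self, h1, eqS_eq h2, h3⟩
    · obtain ⟨z', h1, h2⟩ := ih hr
      exact ⟨z', List.mem_cons_of_mem _ h1, h2⟩

/-- `r` is the code of a position after a move from the state `s`, heap `h` -/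
def rep (ok : St → ℕ → Bool) (st : St → ℕ → St) (s : St) (h r : ℕ) : Bool :=
  potRep ok st s h r pots || (eqS (dec r) s && Nat.ble (hd r + 1) h)

/-- the check of the replies to the sowing moves -/
def chkP (ok ok' : St → ℕ → Bool) (st st' : St → ℕ → St) (prev : List ℕ) (s : St) (h : ℕ) :
    List ℕ → List ℕ → Bool
  | [], _ => true
  | _ :: _, [] => false
  | z :: zs, r :: rs => (!(ok s z) || (mem r prev && rep ok' st' (st s z) h r)) &&
      chkP ok ok' st st' prev s h zs rs

/-- the check of the replies to the nim moves -/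
def chkN (ok' : St → ℕ → Bool) (st' : St → ℕ → St) (prev : List ℕ) (s : St) :
    ℕ → List ℕ → Bool
  | 0, _ => true
  | _ + 1, [] => false
  | j + 1, r :: rs => (mem r prev && rep ok' st' s j r) && chkN ok' st' prev s j rs

/-- the check of a certificate -/
def run (ok ok' : St → ℕ → Bool) (st st' : St → ℕ → St) :
    List (ℕ × List ℕ × List ℕ) → List ℕ → Bool
  | [], _ => true
  | (n, hp, hn) :: t, prev => (chkP ok ok' st st' prev (dec n) (hd n) pots hp &&
      chkN ok' st' prev (dec n) (hd n) hn) && run ok ok' st st' t (n :: prev)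

lemma chkP_spec {ok ok' : St → ℕ → Bool} {st st' : St → ℕ → St} {prev : List ℕ} {s : St}
    {h : ℕ} {zs rs : List ℕ} (hc : chkP ok ok' st st' prev s h zs rs = true) :
    ∀ z ∈ zs, ok s z = true → ∃ r ∈ prev, rep ok' st' (st s z) h r = true := by
  induction zs generalizing rs with
  | nil => intro z hz; exact absurd hz List.not_mem_nil
  | cons z zs ih =>
    cases rs with
    | nil => exact absurd hc (by simp [chkP])
    | cons r rs =>
      rw [chkP, Bool.and_eq_true, Bool.or_eq_true, Bool.and_eq_true] at hc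
      obtain ⟨h1, h2⟩ := hc
      intro z' hz' hk
      rcases List.mem_cons.1 hz' with rfl | hz'
      · rcases h1 with h1 | ⟨h1, h3⟩
        · rw [hk] at h1; exact absurd h1 (by decide)
        · exact ⟨r, mem_mem h1, h3⟩
      · exact ih h2 z' hz' hk

lemma chkN_spec {ok' : St → ℕ → Bool} {st' : St → ℕ → St} {prev : List ℕ} {s : St}
    {h : ℕ} {rs : List ℕ} (hc : chkN ok' st' prev s h rs = true) :
    ∀ j < h, ∃ r ∈ prev, rep ok' st' s j r = true := by
  induction h generalizing rs with
  | zero => intro j hj; omega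
  | succ h ih =>
    cases rs with
    | nil => exact absurd hc (by simp [chkN])
    | cons r rs =>
      rw [chkN, Bool.and_eq_true, Bool.and_eq_true] at hc
      obtain ⟨⟨h1, h3⟩, h2⟩ := hc
      intro j hj
      rcases Nat.lt_or_ge j h with h4 | h4
      · exact ih h2 j h4
      · rw [show j = h by omega]
        exact ⟨r, mem_mem h1, h3⟩

/-- the meaning of a code: Left wins, Right moves first -/
def VL (k n : ℕ) : Prop :=
  ∀ p, Ty (dec n) p → (sowing.sub games).LeftSecond k (p, [nim (hd n)])

/-- the meaning of a code: Right wins, Left moves first -/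
def VR (k n : ℕ) : Prop :=
  ∀ p, Ty (dec n) p → (sowing.sub games).RightSecond k (p, [nim (hd n)])

/-- a reply of Left -/
lemma repL {k : ℕ} {s : St} {h r : ℕ} (hr : rep okL stL s h r = true) (hv : VL k r)
    {p : ℤ → ℕ} (hp : Ty s p) : ∃ z, (sowing.sub games).L (p, [nim h]) z ∧
      (sowing.sub games).LeftSecond k z := by
  rw [rep, Bool.or_eq_true, Bool.and_eq_true, Nat.ble_eq] at hr
  rcases hr with hr | ⟨h1, h2⟩
  · obtain ⟨z, hz, hk, he, hh⟩ := potRep_spec hr
    refine ⟨(sowRight p z, [nim h]), Or.inl ⟨(left_iff hp _).2 ⟨z, hz, hk, rfl⟩, rfl⟩, ?_⟩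
    rw [← hh]
    exact hv _ (by rw [he]; exact left_ty hp hz hk)
  · refine ⟨(p, [nim (hd r)]), Or.inr ⟨rfl, (gamesR_iff h _).2 ⟨hd r, by omega, rfl⟩⟩, ?_⟩
    exact hv _ (by rw [eqS_eq h1]; exact hp)

/-- a reply of Right -/
lemma repR {k : ℕ} {s : St} {h r : ℕ} (hr : rep okR stR s h r = true) (hv : VR k r)
    {p : ℤ → ℕ} (hp : Ty s p) : ∃ z, (sowing.sub games).R (p, [nim h]) z ∧
      (sowing.sub games).RightSecond k z := by
  rw [rep, Bool.or_eq_true, Bool.and_eq_true, Nat.ble_eq] at hr
  rcases hr with hr | ⟨h1, h2⟩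
  · obtain ⟨z, hz, hk, he, hh⟩ := potRep_spec hr
    refine ⟨(sowLeft p z, [nim h]), Or.inl ⟨(right_iff hp _).2 ⟨z, hz, hk, rfl⟩, rfl⟩, ?_⟩
    rw [← hh]
    exact hv _ (by rw [he]; exact right_ty hp hz hk)
  · refine ⟨(p, [nim (hd r)]), Or.inr ⟨rfl, (gamesL_iff h _).2 ⟨hd r, by omega, rfl⟩⟩, ?_⟩
    exact hv _ (by rw [eqS_eq h1]; exact hp)

lemma runL {l : List (ℕ × List ℕ × List ℕ)} : ∀ {prev : List ℕ} {k : ℕ},
    run okR okL stR stL l prev = true → (∀ r ∈ prev, VL k r) →
    ∃ K, ∀ e ∈ l, VL K e.1 := by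
  induction l with
  | nil => intro prev k _ _; exact ⟨0, fun e he => absurd he List.not_mem_nil⟩
  | cons e t ih =>
    obtain ⟨n, hp, hn⟩ := e
    intro prev k hr hv
    rw [run, Bool.and_eq_true, Bool.and_eq_true] at hr
    obtain ⟨⟨h1, h2⟩, h3⟩ := hr
    have hn1 : VL (k + 1) n := by
      rintro p hty ⟨y1, y2⟩ (⟨hy1, hy2⟩ | ⟨hy1, hy2⟩)
      · simp only at hy1 hy2
        subst hy2
        obtain ⟨z, hz, hk, rfl⟩ := (right_iff hty _).1 hy1
        obtain ⟨r, hr1, hr2⟩ := chkP_spec h1 z hz hk
        exact repL hr2 (hv r hr1) (right_ty hty hz hk)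
      · simp only at hy1 hy2
        subst hy1
        obtain ⟨j, hj, rfl⟩ := (gamesL_iff _ _).1 hy2
        obtain ⟨r, hr1, hr2⟩ := chkN_spec h2 j hj
        exact repL hr2 (hv r hr1) hty
    obtain ⟨K, hK⟩ := ih (k := k + 1) h3 (by
      intro r hr
      rcases List.mem_cons.1 hr with rfl | hr
      · exact hn1
      · exact fun p hty => ls_mono _ _ _ (hv r hr p hty))
    refine ⟨K + (k + 1), fun e he => ?_⟩
    have mono : ∀ (m : ℕ) {a c : ℕ}, VL a c → VL (a + m) c := by
      intro m
      induction m with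
      | zero => intro a c h; exact h
      | succ m ihm => intro a c h p hty; exact ls_mono _ _ _ (ihm h p hty)
    rcases List.mem_cons.1 he with rfl | he
    · rw [add_comm]; exact mono K hn1
    · exact mono (k + 1) (hK e he)

lemma runR {l : List (ℕ × List ℕ × List ℕ)} : ∀ {prev : List ℕ} {k : ℕ},
    run okL okR stL stR l prev = true → (∀ r ∈ prev, VR k r) →
    ∃ K, ∀ e ∈ l, VR K e.1 := by
  induction l with
  | nil => intro prev k _ _; exact ⟨0, fun e he => absurd he List.not_mem_nil⟩
  | cons e t ih =>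
    obtain ⟨n, hp, hn⟩ := e
    intro prev k hr hv
    rw [run, Bool.and_eq_true, Bool.and_eq_true] at hr
    obtain ⟨⟨h1, h2⟩, h3⟩ := hr
    have hn1 : VR (k + 1) n := by
      rintro p hty ⟨y1, y2⟩ (⟨hy1, hy2⟩ | ⟨hy1, hy2⟩)
      · simp only at hy1 hy2
        subst hy2
        obtain ⟨z, hz, hk, rfl⟩ := (left_iff hty _).1 hy1
        obtain ⟨r, hr1, hr2⟩ := chkP_spec h1 z hz hk
        exact repR hr2 (hv r hr1) (left_ty hty hz hk)
      · simp only at hy1 hy2
        subst hy1
        obtain ⟨j, hj, rfl⟩ := (gamesR_iff _ _).1 hy2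
        obtain ⟨r, hr1, hr2⟩ := chkN_spec h2 j hj
        exact repR hr2 (hv r hr1) hty
    obtain ⟨K, hK⟩ := ih (k := k + 1) h3 (by
      intro r hr
      rcases List.mem_cons.1 hr with rfl | hr
      · exact hn1
      · exact fun p hty => rs_mono _ _ _ (hv r hr p hty))
    refine ⟨K + (k + 1), fun e he => ?_⟩
    have mono : ∀ (m : ℕ) {a c : ℕ}, VR a c → VR (a + m) c := by
      intro m
      induction m with
      | zero => intro a c h; exact h
      | succ m ihm => intro a c h p hty; exact rs_mono _ _ _ (ihm h p hty)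
    rcases List.mem_cons.1 he with rfl | he
    · rw [add_comm]; exact mono K hn1
    · exact mono (k + 1) (hK e he)

/-! ### the certificates -/

/-- Left moves second -/
def certL : List (ℕ × List ℕ × List ℕ) :=
  [(0, [0, 0, 0, 0, 0], []),
  (1048576, [0, 0, 0, 0, 0], []),
  (1048641, [1048576, 1048576, 0, 0, 0], []),
  (218890240, [0, 0, 0, 0, 1048641], []),
  (128, [0, 0, 0, 0, 0], []),
  (266368, [0, 0, 128, 128, 0], []),
  (218103809, [0, 0, 0, 0, 266368], []),
  (16384, [0, 0, 0, 0, 0], []),
  (1060992, [0, 0, 1048576, 16384, 0], []),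
  (218898433, [218890240, 0, 218890240, 218103809, 1060992], []),
  (234881025, [0, 0, 0, 0, 266368], []),
  (1074003968, [0, 0, 0, 0, 0], [0]),
  (1073745920, [0, 0, 0, 0, 0], [0]),
  (266240, [0, 0, 0, 0, 0], []),
  (1074008065, [1074003968, 0, 1074003968, 1073745920, 0], [266240]),
  (256, [0, 0, 0, 0, 0], []),
  (1074004224, [0, 1074003968, 0, 256, 0], [256]),
  (1073746176, [0, 1073745920, 256, 0, 0], [256]),
  (270336, [0, 0, 0, 0, 0], []),
  (2147750144, [0, 1074008065, 1074004224, 1073746176, 0], [1074004224, 270336]),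
  (1308622848, [0, 0, 0, 0, 1074008065], [0]),
  (192, [0, 0, 0, 0, 0], []),
  (2382364864, [0, 234881025, 0, 0, 2147750144], [1308622848, 192]),
  (1291845632, [0, 0, 0, 0, 1074008065], [0]),
  (2365587648, [0, 218103809, 0, 0, 2147750144], [1291845632, 192]),
  (1310720, [0, 0, 0, 0, 0], []),
  (1074806784, [0, 0, 0, 1074003968, 0], [1310720]),
  (1073741888, [0, 0, 0, 0, 0], [0]),
  (20480, [0, 0, 0, 0, 0], []),
  (1073762305, [1074003968, 0, 1073741888, 0, 0], [20480]),
  (16793601, [16384, 0, 0, 0, 16384], []),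
  (2148548609, [1074806784, 0, 0, 1073762305, 0], [1074806784, 16793601]),
  (1090519040, [0, 0, 0, 0, 0], [0]),
  (1073750016, [0, 0, 0, 0, 0], [0]),
  (16785408, [0, 0, 0, 0, 0], []),
  (1090527233, [1090519040, 0, 1090519040, 0, 1073750016], [16785408]),
  (1090519232, [0, 1090519040, 0, 0, 192], [192]),
  (16777217, [0, 0, 0, 0, 0], []),
  (786624, [0, 16777217, 0, 0, 0], []),
  (1074536640, [0, 1090527233, 1090519232, 1073750016, 0], [786624]),
  (274432, [0, 0, 0, 0, 0], []),
  (274688, [0, 274432, 256, 16384, 0], []),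
  (234889408, [0, 234881025, 192, 0, 274688], []),
  (2366382272, [0, 218898433, 2382364864, 2365587648, 2148548609], [1074536640, 234889408]),
  (1572864, [0, 0, 0, 0, 0], []),
  (1327168, [0, 1572864, 1310720, 20480, 0], []),
  (235941888, [0, 0, 1048576, 16384, 1327168], []),
  (1314944, [0, 0, 1310720, 128, 0], []),
  (235929664, [0, 1048576, 0, 0, 1314944], []),
  (1074024448, [0, 0, 1074003968, 1074003968, 0], [20480]),
  (1074004096, [0, 0, 0, 128, 0], [128]),
  (282688, [0, 20480, 128, 20480, 0], []),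
  (1074024513, [1074024448, 1074024448, 1074004096, 1073762305, 0], [282688]),
  (234897408, [0, 0, 0, 0, 282688], []),
  (4529864704, [0, 0, 0, 0, 1074024513], [234897408, 234897408, 234897408, 16384]),
  (4311744704, [0, 16777217, 0, 0, 192], [1090519232, 1090519232, 1090519040, 192]),
  (4295229568, [0, 0, 0, 128, 0], [1074004096, 1074004096, 1074003968, 128]),
  (1075068928, [0, 0, 0, 1074003968, 0], [1572864]),
  (1090535424, [0, 0, 0, 0, 16384], [16384]),
  (3222552576, [0, 0, 0, 20480, 0], [1075068928, 1090535424, 1572864]),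
  (2148810752, [0, 0, 0, 20480, 0], [1090535424, 1572864]),
  (1572992, [0, 0, 0, 128, 0], []),
  (4296294528, [0, 0, 4311744704, 4295229568, 0], [3222552576, 2148810752, 1075068928, 1572992]),
  (4160, [0, 0, 0, 0, 0], []),
  (1310785, [1310720, 1310720, 0, 4160, 0], []),
  (235929600, [0, 0, 0, 0, 1310785], []),
  (2147483776, [0, 0, 0, 0, 0], [128, 0]),
  (3238002816, [0, 0, 0, 0, 128], [2147483776, 1090519040, 128]),
  (1073762368, [0, 1074003968, 128, 0, 0], [20480]),
  (16793664, [0, 16384, 128, 0, 16384], []),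
  (3222552640, [0, 1075068928, 3238002816, 1073762368, 0], [2148810752, 1075068928, 16793664]),
  (3457167360, [0, 0, 235929600, 234897408, 3222552640], [235941888, 235941888, 235929600]),
  (2164260992, [0, 0, 0, 0, 128], [1090519040, 128]),
  (2148810816, [0, 1075068928, 2164260992, 1073762368, 0], [1075068928, 16793664]),
  (2383425536, [0, 0, 235929600, 234897408, 2148810816], [235941888, 235929600]),
  (1090519168, [0, 0, 0, 0, 128], [128]),
  (1073758272, [0, 16384, 128, 0, 0], [16384]),
  (1090535489, [1090535424, 1090535424, 1090519168, 0, 1073758272], [16793664]),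
  (1309683712, [0, 0, 235929600, 234897408, 1090535489], [235929600]),
  (4530909248, [0, 235941888, 235929664, 4529864704, 4296294528], [3457167360, 2383425536, 1309683712, 235941888]),
  (17039360, [0, 0, 0, 0, 0], []),
  (17043520, [0, 266240, 17039360, 4160, 266240], []),
  (1073741838, [0, 0, 0, 0, 0], [17043520]),
  (1091829760, [0, 0, 0, 1090519040, 1090519040], [1310720]),
  (1075052672, [0, 0, 0, 1073745920, 0], [1310720]),
  (16781312, [0, 0, 0, 0, 0], []),
  (18088064, [0, 0, 0, 16781312, 1310720], []),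
  (1091838080, [0, 0, 1091829760, 1090519168, 1075052672], [18088064]),
  (234881088, [0, 0, 0, 0, 266368], []),
  (1319040, [0, 0, 1310720, 128, 0], []),
  (235933760, [0, 235929600, 235929600, 234881088, 1319040], []),
  (1292632078, [1308622848, 0, 0, 1073741838, 1091838080], [235933760]),
  (262158, [0, 0, 0, 17043520, 0], []),
  (1074012174, [1074003968, 0, 1073741838, 1073741838, 0], [262158]),
  (33554560, [0, 0, 0, 0, 0], []),
  (524416, [0, 0, 0, 0, 0], []),
  (17309824, [0, 0, 33554560, 16785408, 524416], []),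
  (218103821, [0, 0, 0, 0, 17309824], []),
  (1291845837, [1291845632, 1073741838, 0, 0, 1074012174], [218103821]),
  (1090523137, [1090519040, 0, 1090519040, 0, 1073745920], [16781312]),
  (1075052545, [1090519040, 0, 0, 1073745920, 0], [1310720]),
  (33554433, [0, 0, 0, 0, 0], []),
  (2165571585, [1091829760, 0, 0, 1090523137, 1075052545], [1091829760, 33554433]),
  (33554432, [0, 0, 0, 0, 0], []),
  (1107300352, [0, 0, 33554432, 0, 0], [33554432]),
  (33558528, [0, 0, 0, 0, 0], []),
  (2181038400, [0, 33554433, 0, 0, 0], [1107300352, 33558528]),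
  (16789824, [0, 16777217, 16781312, 0, 16384], []),
  (1090519360, [0, 1090519040, 0, 0, 1073745920], [16781312]),
  (320, [0, 0, 0, 0, 0], []),
  (1073750336, [0, 1073750016, 1073745920, 0, 0], [320]),
  (16789504, [0, 0, 0, 0, 0], []),
  (2164269376, [0, 1090527233, 1090519360, 0, 1073750336], [1090519360, 16789504]),
  (33554752, [0, 33554432, 0, 0, 0], []),
  (1091830080, [0, 1091829760, 0, 1090519360, 1090519360], [33554752]),
  (18100224, [0, 0, 33554432, 16384, 1310720], []),
  (2165580096, [0, 2165571585, 2181038400, 16789824, 2164269376], [1091830080, 18100224]),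
  (1292632077, [1308622848, 0, 0, 218103821, 1091838080], [235933760]),
  (235929601, [1048576, 0, 0, 0, 1314944], []),
  (1048832, [0, 1048576, 0, 0, 0], []),
  (278592, [0, 16384, 128, 16384, 0], []),
  (234893312, [0, 0, 0, 0, 278592], []),
  (1323009, [1310720, 0, 1310720, 16384, 0], []),
  (235933952, [0, 235929601, 1048832, 234893312, 1323009], []),
  (2366374093, [2382364864, 1292632078, 0, 1291845837, 2165580096], [1292632077, 235933952]),
  (1073741825, [0, 0, 0, 0, 0], [0]),
  (4294967488, [0, 1073741825, 0, 0, 0], [192, 192, 192, 0]),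
  (8206, [0, 0, 17043520, 0, 0], []),
  (17043457, [17039360, 0, 17039360, 16781312, 266240], []),
  (17039616, [0, 17039360, 0, 256, 256], []),
  (4097, [0, 0, 0, 0, 0], []),
  (4294971648, [0, 4097, 256, 0, 0], [1073746176, 1073746176, 1073750016, 256]),
  (1090519296, [0, 1090519040, 0, 0, 256], [256]),
  (2147488000, [0, 4097, 256, 0, 0], [1073750016, 256]),
  (3238007040, [0, 1090523137, 1090519296, 0, 1073746176], [2147488000, 1090519296, 16785408]),
  (1090789376, [0, 0, 1090519040, 1090519040, 1074003968], [17039360]),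
  (4312011008, [0, 17043457, 17039616, 4294971648, 4294971648], [3238007040, 2147750144, 1090789376, 17039616]),
  (1073741837, [0, 0, 0, 0, 0], [17043520]),
  (8205, [0, 0, 17043520, 0, 0], []),
  (17051712, [0, 17039360, 17039360, 16789504, 274432], []),
  (3221233677, [1073750016, 0, 1073741837, 0, 0], [8205, 1073741837, 17051712]),
  (2147491853, [1073750016, 0, 1073741837, 0, 0], [1073741837, 17051712]),
  (1090793472, [0, 0, 1090519040, 1090519040, 1074003968], [17039360]),
  (1090793728, [0, 1090793472, 1090519296, 1090535424, 1074004224], [17039616]),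
  (4294975693, [4294967488, 8206, 4312011008, 0, 0], [3221233677, 2147491853, 1090793728, 8205]),
  (1090539520, [0, 0, 1090519040, 0, 1074003968], [17039360]),
  (33570816, [0, 0, 0, 0, 0], []),
  (4313071616, [0, 0, 0, 1090539520, 1075068928], [3222552576, 2148810752, 1075068928, 33570816]),
  (3254784000, [0, 0, 33554432, 0, 0], [33558528, 1073745920, 33554432]),
  (2181042176, [0, 0, 33554432, 0, 0], [1073745920, 33554432]),
  (4328522112, [0, 33554433, 0, 0, 0], [3254784000, 2181042176, 1107300352, 33558528]),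
  (16797697, [17039360, 0, 16777217, 0, 20480], []),
  (1090519424, [0, 1090519040, 0, 0, 1073745920], [16781312]),
  (384, [0, 0, 0, 0, 0], []),
  (1074004288, [0, 1074003968, 0, 1073745920, 0], [266240]),
  (24576, [0, 0, 0, 0, 0], []),
  (2147504448, [0, 1073762305, 384, 0, 0], [1074004288, 24576]),
  (1090543616, [0, 0, 0, 0, 24576], [24576]),
  (17039680, [0, 17039360, 0, 16781312, 266240], []),
  (3238023488, [0, 16797697, 1090519424, 0, 2147504448], [2147504448, 1090543616, 17039680]),
  (1573184, [0, 1572864, 0, 320, 0], []),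
  (1075069248, [0, 1075068928, 1090519424, 1074004288, 0], [1573184]),
  (1107296256, [0, 0, 0, 0, 0], [0]),
  (3239313408, [0, 0, 0, 16781312, 1310720], [1091829760, 1107296256, 33554432]),
  (1075052608, [0, 1090519040, 0, 1073745920, 0], [1310720]),
  (2148814848, [0, 0, 1075052608, 24576, 0], [1090539520, 1572864]),
  (1092091904, [0, 0, 0, 1090519040, 1090519040], [33554432]),
  (33574912, [0, 0, 33554432, 0, 0], []),
  (3239333888, [0, 0, 3239313408, 1090543616, 2148814848], [2148814848, 1092091904, 33574912]),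
  (2165833728, [0, 0, 0, 16781312, 1572864], [1107296256, 33554432]),
  (2147488064, [0, 4097, 320, 0, 0], [1073750016, 320]),
  (1107296576, [0, 1107296256, 0, 0, 0], [33558528]),
  (2165834048, [0, 2165833728, 0, 2147488064, 1573184], [1107296576, 33554752]),
  (33554496, [0, 0, 0, 0, 0], []),
  (18108416, [0, 0, 33554496, 24576, 1572864], []),
  (4313071936, [0, 4313071616, 4328522112, 3238023488, 1075069248], [3239333888, 2165834048, 1075069248, 18108416]),
  (1073754112, [0, 0, 0, 0, 0], [0]),
  (1311040, [0, 1310720, 0, 320, 0], []),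
  (1075056960, [0, 1075052545, 1090519360, 1073754112, 0], [1311040]),
  (1309671680, [0, 235929601, 0, 0, 1075056960], [1048832]),
  (262272, [0, 0, 0, 0, 0], []),
  (286721, [24576, 0, 262272, 24576, 0], []),
  (234897664, [0, 234897408, 320, 0, 286721], []),
  (1073741952, [0, 0, 0, 0, 0], [0]),
  (1073766401, [24576, 0, 1073741952, 0, 0], [24576]),
  (1075314689, [1090519040, 0, 0, 1073745920, 0], [1572864]),
  (3222556673, [2148814848, 0, 1310785, 1073766401, 0], [2148814848, 1075314689, 16797697]),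
  (1074012161, [1074003968, 0, 1074003968, 1073750016, 0], [270336]),
  (1325400320, [0, 1073741825, 0, 0, 1074012161], [256]),
  (1331264, [0, 1572864, 1310720, 24576, 0], []),
  (235945984, [0, 0, 0, 20480, 1331264], []),
  (1309683968, [0, 1309683712, 1325400320, 234897664, 1075069248], [235945984]),
  (3457167616, [0, 3457167360, 1309671680, 234897664, 3222556673], [1309683968, 1309671680, 235945984]),
  (33554624, [0, 33554432, 0, 0, 0], []),
  (17039488, [0, 0, 0, 128, 128], []),
  (18104448, [0, 0, 33554624, 17039488, 1572992], []),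
  (218898445, [218890240, 0, 235933760, 218103821, 18104448], []),
  (4513865933, [2366382272, 4530909248, 2366374093, 4294975693, 4313071936], [3457167616, 2366374093, 1309683968, 218898445])]

/-- Right moves second -/
def certR : List (ℕ × List ℕ × List ℕ) :=
  [(0, [0, 0, 0, 0, 0], []),
  (1073745920, [0, 0, 0, 0, 0], [0]),
  (1090519040, [0, 0, 0, 0, 0], [0]),
  (1310720, [0, 0, 0, 0, 0], []),
  (1075052608, [0, 1073745920, 0, 1090519040, 0], [1310720]),
  (1572864, [0, 0, 0, 0, 0], []),
  (1075314689, [1073745920, 0, 0, 1090519040, 0], [1572864]),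
  (1073741825, [0, 0, 0, 0, 0], [0]),
  (16777217, [0, 0, 0, 0, 0], []),
  (1090519424, [0, 1090519040, 0, 0, 1073741825], [16777217]),
  (1311104, [0, 1310720, 0, 16777217, 0], []),
  (1075069248, [0, 1075052608, 1075314689, 1090519424, 0], [1311104]),
  (1073741888, [0, 0, 0, 0, 0], [0]),
  (16777280, [0, 0, 0, 0, 0], []),
  (1090539520, [0, 0, 1090519040, 0, 1073741888], [16777280]),
  (24576, [0, 0, 0, 0, 0], []),
  (2148814848, [0, 0, 1572864, 1090539520, 0], [1075052608, 24576]),
  (20480, [0, 0, 0, 0, 0], []),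
  (16797697, [16777280, 0, 16777217, 0, 20480], []),
  (1073766401, [24576, 0, 0, 0, 0], [24576]),
  (1310785, [1310720, 1310720, 0, 16777280, 0], []),
  (3222556673, [2148814848, 0, 1075314689, 16797697, 0], [2148814848, 1073766401, 1310785]),
  (2, [0, 0, 0, 0, 0], []),
  (4294967298, [0, 0, 0, 0, 0], [2, 2, 2, 0]),
  (2147483650, [0, 0, 0, 0, 0], [2, 0]),
  (3221229570, [0, 0, 2, 0, 0], [2147483650, 1073745920, 2]),
  (2147487746, [0, 0, 2, 0, 0], [1073745920, 2]),
  (1073745922, [0, 0, 2, 0, 0], [2]),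
  (4296540162, [0, 0, 0, 4294967298, 0], [3221229570, 2147487746, 1073745922, 1572864]),
  (384, [0, 0, 0, 0, 0], []),
  (1073758528, [0, 1073741888, 0, 0, 0], [384]),
  (16384, [0, 0, 0, 0, 0], []),
  (1073758209, [16384, 0, 0, 0, 0], [16384]),
  (3221242176, [0, 20480, 0, 0, 0], [1073758528, 1073758209, 384]),
  (2147500352, [0, 20480, 0, 0, 0], [1073758209, 384]),
  (16793601, [16384, 0, 0, 0, 16384], []),
  (4311761216, [0, 1090539520, 0, 0, 1073758528], [3221242176, 2147500352, 1090519424, 16793601]),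
  (16386, [0, 0, 0, 0, 0], []),
  (3221241858, [0, 0, 0, 0, 0], [16386, 16386, 16384]),
  (20482, [0, 0, 2, 0, 0], []),
  (2147504130, [0, 0, 2147483650, 0, 0], [20482, 20480]),
  (1074003968, [0, 0, 0, 0, 0], [0]),
  (1073762306, [0, 0, 1074003968, 0, 0], [20480]),
  (3222552578, [0, 0, 3221229570, 3221241858, 0], [2147504130, 1073762306, 20482]),
  (2147500034, [0, 0, 0, 0, 0], [16386, 16384]),
  (2148810754, [0, 0, 2147487746, 2147500034, 0], [1073762306, 20482]),
  (1327106, [0, 0, 1572864, 16386, 0], []),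
  (4296294721, [1075069248, 3222556673, 4296540162, 4311761216, 0], [3222552578, 2148810754, 1075069248, 1327106]),
  (1048576, [0, 0, 0, 0, 0], []),
  (16781312, [0, 0, 0, 0, 0], []),
  (1074794496, [0, 0, 1048576, 1090519040, 0], [1048576]),
  (1073750016, [0, 0, 0, 0, 0], [0]),
  (4296019968, [0, 0, 1048576, 16781312, 0], [1074794496, 1074794496, 1073750016, 1048576]),
  (1048641, [1048576, 1048576, 0, 16777280, 0], []),
  (4160, [0, 0, 0, 0, 0], []),
  (16781377, [16781312, 16781312, 16777280, 0, 4160], []),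
  (1074790464, [0, 1048576, 0, 1090519040, 0], [1048576]),
  (1090523200, [0, 1090519040, 1090519040, 0, 1073745920], [16781312]),
  (2148536320, [0, 0, 1048576, 16781312, 0], [1073750016, 1048576]),
  (8256, [0, 0, 0, 0, 0], []),
  (3222278208, [0, 1074794496, 1074790464, 1090523200, 0], [2148536320, 1074794496, 8256]),
  (2148536384, [0, 1074794496, 1074790464, 1090523200, 0], [1074794496, 8256]),
  (1073750081, [1073750016, 1073750016, 1073741888, 0, 0], [8256]),
  (4296020033, [4296019968, 4296019968, 1048641, 16781377, 0], [3222278208, 2148536384, 1073750081, 1048641]),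
  (266240, [0, 0, 0, 0, 0], []),
  (262208, [0, 0, 0, 0, 0], []),
  (266305, [4160, 266240, 262208, 4160, 0], []),
  (234889216, [0, 0, 266305, 0, 0], []),
  (786432, [0, 0, 0, 0, 0], []),
  (4295753728, [0, 0, 0, 1090519040, 0], [786432, 786432, 786432, 0]),
  (1291845632, [0, 0, 0, 0, 0], [266305]),
  (218112000, [0, 0, 266305, 0, 0], []),
  (274432, [0, 0, 0, 0, 0], []),
  (12352, [0, 0, 0, 0, 0], []),
  (274497, [262208, 274432, 262208, 12352, 0], []),
  (3439337472, [0, 0, 1291845632, 0, 1073750016], [218112000, 1291845632, 274497]),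
  (2365595648, [0, 0, 1291845632, 0, 1073750016], [1291845632, 274497]),
  (1090531392, [0, 1090519040, 1090519040, 0, 1073741888], [16777280]),
  (1074802753, [1074790464, 1073758209, 1074790464, 1090531392, 0], [1048641]),
  (4513865728, [0, 0, 4296020033, 234889216, 4295753728], [3439337472, 2365595648, 1074802753, 218112000]),
  (1075060736, [0, 0, 1073745920, 1090519040, 0], [1310720]),
  (1075052545, [1073745920, 0, 0, 1090519040, 0], [1310720]),
  (1090527233, [1090519040, 0, 1090519040, 0, 1073750016], [16777217]),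
  (12289, [0, 0, 0, 0, 0], []),
  (2148802561, [1075060736, 0, 1075052545, 1090527233, 0], [1075060736, 12289]),
  (1323009, [1310720, 0, 1310720, 16777217, 0], []),
  (2148794370, [0, 0, 0, 2147483650, 0], [1073745922, 1310720]),
  (1090519042, [0, 0, 0, 0, 2], [2]),
  (16785408, [0, 0, 0, 0, 0], []),
  (2164269058, [0, 0, 2147483650, 0, 2147483650], [1090519042, 16785408]),
  (1310722, [0, 0, 0, 2, 0], []),
  (1075060738, [0, 0, 1073745922, 1090519042, 0], [1310722]),
  (1318914, [0, 0, 1310720, 16785408, 0], []),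
  (2148802881, [2148802561, 1323009, 2148794370, 2164269058, 0], [1075060738, 1318914]),
  (1075056705, [1075052608, 1075052545, 1075052608, 1090523200, 0], [1310785]),
  (1325400064, [0, 0, 0, 0, 0], [266305]),
  (1309675520, [0, 0, 1075056705, 1325400064, 1073750016], [234889216]),
  (1308622848, [0, 0, 0, 0, 0], [266305]),
  (1073741837, [1090523200, 0, 0, 0, 0], [0]),
  (218890240, [0, 0, 0, 266305, 0], []),
  (1292632077, [1309675520, 0, 0, 1308622848, 1073741837], [218890240]),
  (532480, [0, 0, 0, 0, 0], []),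
  (1074274305, [1073750016, 0, 1073741825, 0, 0], [532480]),
  (524288, [0, 0, 0, 0, 0], []),
  (1074278400, [0, 0, 524288, 0, 0], [524288]),
  (524289, [0, 0, 0, 0, 0], []),
  (1074266432, [0, 1073745920, 0, 0, 0], [524289]),
  (532800, [0, 524288, 524289, 0, 0], []),
  (1074274625, [1074274305, 1074278400, 1074266432, 0, 0], [532800]),
  (1073741838, [1090523200, 0, 0, 0, 0], [0]),
  (524416, [0, 0, 0, 0, 0], []),
  (532609, [524416, 532480, 524416, 0, 0], []),
  (234881038, [532609, 0, 0, 0, 0], []),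
  (1308623053, [1074274625, 1308622848, 0, 0, 1073741838], [234881038]),
  (528448, [0, 524288, 524288, 0, 0], []),
  (16777230, [528448, 0, 0, 0, 0], []),
  (2148270094, [2148536384, 0, 0, 16777230, 0], [1073741838, 786432]),
  (1292632078, [1309675520, 0, 0, 1308622848, 1073741838], [218890240]),
  (16789824, [0, 16384, 16777217, 0, 12289], []),
  (17055744, [0, 0, 524288, 16384, 16384], []),
  (12302, [17055744, 0, 0, 0, 0], []),
  (1048832, [0, 0, 0, 16777217, 0], []),
  (528704, [0, 524288, 524289, 0, 0], []),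
  (256, [0, 0, 0, 0, 0], []),
  (16777486, [528704, 0, 0, 0, 256], []),
  (1052942, [16789824, 12302, 1048832, 16777486, 0], []),
  (2366374093, [2148802881, 1292632077, 0, 1308623053, 2148270094], [1292632078, 1052942]),
  (1074266176, [0, 524288, 0, 0, 0], [524288]),
  (1074024448, [0, 0, 524288, 1073741888, 0], [262208]),
  (17059840, [0, 0, 524288, 16777280, 262208], []),
  (1090801728, [0, 1090539520, 1074266176, 1090539520, 1074024448], [17059840]),
  (16398, [17059840, 0, 0, 0, 0], []),
  (4294983694, [1090801728, 0, 0, 0, 0], [16398, 16398, 16398, 16384]),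
  (262414, [528704, 0, 0, 256, 0], []),
  (17039744, [0, 16781312, 0, 16777217, 384], []),
  (12558, [17039744, 16384, 256, 0, 0], []),
  (528385, [524288, 0, 524288, 0, 0], []),
  (3221754176, [0, 532480, 1074266432, 0, 0], [528704, 1074266432, 528385]),
  (17043457, [16781312, 0, 16777217, 16781312, 266240], []),
  (270, [17043457, 0, 0, 0, 0], []),
  (3221487886, [3221754176, 0, 0, 270, 0], [262414, 262414, 270]),
  (2148012352, [0, 532480, 1074266432, 0, 0], [1074266432, 528385]),
  (2147746062, [2148012352, 0, 0, 270, 0], [262414, 270]),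
  (540672, [0, 0, 0, 0, 0], []),
  (1074282560, [0, 540672, 1073741888, 0, 0], [540672]),
  (1073754112, [0, 0, 0, 0, 0], [0]),
  (1074016271, [1074282560, 0, 1074003968, 1073754112, 0], [274432]),
  (4295241998, [4311761216, 4294983694, 262414, 12558, 0], [3221487886, 2147746062, 1074016271, 262414]),
  (320, [0, 0, 0, 0, 0], []),
  (1073758464, [0, 1073741888, 0, 0, 0], [320]),
  (2164277504, [0, 1090539520, 0, 0, 1073758464], [1073758464, 16793601]),
  (2148278272, [0, 0, 786432, 16785408, 0], [1073750016, 786432]),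
  (536832, [0, 16384, 524289, 0, 0], []),
  (205, [17043457, 0, 0, 0, 0], []),
  (16785613, [536832, 16785408, 16777230, 0, 205], []),
  (1074528257, [786432, 0, 0, 1090519040, 0], [786432]),
  (794625, [786432, 0, 786432, 16785408, 0], []),
  (1074536640, [0, 1073750016, 1074528257, 1090527233, 0], [794625]),
  (16793664, [0, 16384, 0, 0, 16384], []),
  (794638, [16793664, 0, 786432, 16785408, 0], []),
  (2148278477, [2164277504, 2148278272, 2148270094, 16785613, 0], [1074536640, 794638]),
  (1074266112, [0, 0, 0, 0, 0], [0]),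
  (1090543616, [0, 0, 1074266112, 0, 24576], [24576]),
  (17039680, [0, 16781312, 0, 16777217, 320], []),
  (1074004288, [0, 1074003968, 0, 1073741825, 0], [320]),
  (1073762305, [1073741888, 0, 1074003968, 0, 0], [20480]),
  (2147504448, [0, 24576, 1074004288, 0, 0], [1073762305, 384]),
  (3238023488, [0, 1090543616, 17039680, 0, 2147504448], [2147504448, 1090519424, 16797697]),
  (524352, [0, 0, 0, 0, 0], []),
  (16801856, [0, 24576, 524352, 0, 24576], []),
  (1064974, [16801856, 0, 1310720, 16398, 0], []),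
  (1090523137, [1090519040, 0, 1090519040, 0, 1073745920], [16781312]),
  (1314817, [1310720, 0, 1310720, 16781312, 0], []),
  (1075056960, [0, 1073754112, 1075052545, 1090523137, 0], [1314817]),
  (1074790670, [1075056960, 0, 0, 16777486, 0], [1048832]),
  (3238002958, [3221754176, 0, 0, 0, 270], [16777486, 16777486, 270]),
  (1090527296, [0, 1090519040, 1090519040, 0, 1073750016], [16785408]),
  (1074790415, [1090527296, 0, 0, 1090519040, 0], [1048576]),
  (16789504, [0, 0, 0, 0, 0], []),
  (1090531343, [1074282560, 0, 1090519040, 0, 1073754112], [16789504]),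
  (16797760, [0, 16777280, 16777280, 0, 20480], []),
  (1060879, [16797760, 0, 1048576, 16789504, 0], []),
  (1074802958, [1075069248, 1064974, 1074790415, 1090531343, 0], [1060879]),
  (3222286606, [3238023488, 1064974, 1074790670, 3238002958, 0], [1074802958, 1074790670, 1060879]),
  (235143168, [0, 0, 0, 266305, 0], []),
  (234893312, [0, 0, 266305, 0, 0], []),
  (235155457, [235143168, 0, 235143168, 234893312, 274432], []),
  (218103822, [532609, 0, 0, 0, 0], []),
  (218112205, [235155457, 218112000, 218103822, 0, 205], []),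
  (4513865933, [4296294721, 4513865728, 2366374093, 4295241998, 2148278477], [3222286606, 2366374093, 1074802958, 218112205])]

/-- the row -/
def row : List ℕ := List.replicate 15 99 ++
  [13, 99, 3, 99, 99, 99, 2, 99, 99, 99, 3, 99, 13] ++ List.replicate 15 99

lemma row_ty : Ty (dec 4513865933) (ofList row) := by
  refine ⟨fun j hj => ofList_neg _ j hj, fun j hj => ?_, by decide, by decide, by decide,
    by decide, by decide, ?_⟩
  · obtain ⟨a, rfl⟩ := Int.eq_ofNat_of_zero_le (show 0 ≤ j by omega)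
    rw [ofList_nat]
    exact getD_ge _ a (by
      have : row.length = 43 := by decide
      omega)
  · intro j h0 h1
    obtain ⟨a, rfl⟩ := Int.eq_ofNat_of_zero_le h0
    rw [ofList_nat]
    have ha : a < 43 := by omega
    have key : ∀ a : Fin 43, (a : ℕ) = 15 ∨ (a : ℕ) = 17 ∨ (a : ℕ) = 21 ∨ (a : ℕ) = 25 ∨
        (a : ℕ) = 27 ∨ 43 ≤ row.getD (a : ℕ) 0 := by
      decide
    intro h2 h3 h4 h5 h6
    have h7 := key ⟨a, ha⟩
    simp only at h7
    omega

lemma checkL : run okR okL stR stL certL [] = true := by decide +kernel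

lemma checkR : run okL okR stL stR certR [] = true := by decide +kernel

lemma memL : certL.any (fun e => Nat.beq e.1 4513865933) = true := by decide +kernel

lemma memR : certR.any (fun e => Nat.beq e.1 4513865933) = true := by decide +kernel

/-- **NIM4.** -/
theorem t_NIM4 : S_NIM4 := by
  refine ⟨ofList_support _, ?_, ?_⟩
  · obtain ⟨K, hK⟩ := runL (k := 0) checkL (fun r hr => absurd hr List.not_mem_nil)
    obtain ⟨e, he, h1⟩ := List.any_eq_true.1 memL
    rw [beq_iff] at h1
    have h2 := hK e he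
    rw [h1] at h2
    exact ⟨K, h2 _ row_ty⟩
  · obtain ⟨K, hK⟩ := runR (k := 0) checkR (fun r hr => absurd hr List.not_mem_nil)
    obtain ⟨e, he, h1⟩ := List.any_eq_true.1 memR
    rw [beq_iff] at h1
    have h2 := hK e he
    rw [h1] at h2
    exact ⟨K, h2 _ row_ty⟩

end Pool.Agent.E8helper44.Sow
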